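import Pool.Agent.Work.MP_585ca9_lc.Main
import Pool.Agent.Work.MP_585ca9_lc.Sanity

/-!
# MP_585ca9_lc: no polynomial total time algorithm for the bounded subcomplex unless FPT = W[1]

`HasPolyTotalTimeAlgorithm` says that there are a machine and a polynomial `p` such that, for every
rational system `A x ≤ b` describing an unbounded polyhedron with a vertex, the machine outputs
the Hasse diagram of the bounded subcomplex in at most `p (input length + output length)` steps
(the Hasse diagram always exists, `exists_isHasse`). `CliqueFPT` says that a machine decides
whether a graph with `n` vertices has a clique with `k` vertices in time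
`c * 2 ^ (c * k) * (n + 1) ^ c`.

Idea. From a graph with `K = k + 3` colour classes build the polyhedron of all `(s, y)` with
`∑ s_i = 1`, `y_{i,c} ≤ s_i` and `y_{i,c} + y_{j,c'} + (K - 2) y_{l,c''} ≤ 0` for all pairwise
distinct colours `i, j, l`, all non-adjacent `(i,c), (j,c')` and all `c''`. Its bounded faces are
the `2 ^ K - 1` nonempty faces of the simplex `y = 0` if there is no multicoloured clique, and
there is at least one more if there is one.
-/

set_option autoImplicit false

namespace Pool.Agent.Results.MP_585ca9_lc.CliqueHardness

open Pool.Agent.MP585ca9

/-- If the Hasse diagram of the bounded subcomplex of an unbounded pointed polyhedron given by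
inequalities can be computed in polynomial total time, then the clique problem can be solved in
time `2 ^ O(k) * n ^ O(1)`, so that `FPT = W[1]`. -/
theorem result : HasPolyTotalTimeAlgorithm → CliqueFPT := main

end Pool.Agent.Results.MP_585ca9_lc.CliqueHardness
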